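import Pool.Agent.Q208.SK.LPDb

/-!
The dual of `L^p` of a σ-finite measure.
-/

set_option autoImplicit false

namespace Pool.Agent.Q208.SK

open MeasureTheory Filter Topology Set
open scoped ENNReal NNReal

section

variable {S : Type} [MeasurableSpace S] {μ : Measure S} {p q : ℝ≥0∞}

/-- Change of measure. -/
lemma norm_weight {g0 : S → ℝ≥0} (hg0 : Measurable g0) {r : ℝ≥0∞} (hr0 : r ≠ 0) (hrt : r ≠ ∞)
    (W : S → ℝ) (hW0 : ∀ s, 0 ≤ W s) (hW : ∀ s, W s ^ r.toReal = g0 s)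
    (h : S → ℂ) (hm : AEStronglyMeasurable h μ) :
    eLpNorm (fun s => h s * (W s : ℂ)) r μ
      = eLpNorm h r (μ.withDensity fun s => (g0 s : ℝ≥0∞)) := by
  have hr : 0 < r.toReal := ENNReal.toReal_pos hr0 hrt
  rw [eLpNorm_eq_lintegral_rpow_enorm_toReal hr0 hrt, eLpNorm_eq_lintegral_rpow_enorm_toReal hr0 hrt,
    lintegral_withDensity_eq_lintegral_mul₀ hg0.coe_nnreal_ennreal.aemeasurable
      (hm.enorm.pow_const _)]
  congr 1
  refine lintegral_congr fun s => ?_
  rw [Pi.mul_apply, enorm_mul, ENNReal.mul_rpow_of_nonneg _ _ hr.le, mul_comm]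
  congr 1
  have h1 : ‖(W s : ℂ)‖ₑ = ENNReal.ofReal (W s) := by
    rw [← ofReal_norm, Complex.norm_real, Real.norm_eq_abs, abs_of_nonneg (hW0 s)]
  rw [h1, ENNReal.ofReal_rpow_of_nonneg (hW0 s) hr.le, hW s, ENNReal.ofReal_coe_nnreal]

/-- The dual of `L^p`. -/
theorem dual_sf (μ : Measure S) [SigmaFinite μ] [Fact (1 ≤ p)] [Fact (1 ≤ q)]
    [h : p.HolderConjugate q] (hp : 1 < p) (hq : 1 < q) (f : Lp ℂ p μ →L[ℂ] ℂ) :
    ∃ g : Lp ℂ q μ, ‖g‖ ≤ ‖f‖ ∧ f = pr g := by
  have hpt : p ≠ ∞ := ne_top_left (q := q) hq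
  have hqt : q ≠ ∞ := by
    have : q.HolderConjugate p := h.symm
    exact ne_top_left (q := p) hp
  have hp0 : p ≠ 0 := (zero_lt_one.trans hp).ne'
  have hq0 : q ≠ 0 := (zero_lt_one.trans hq).ne'
  have hP : 0 < p.toReal := ENNReal.toReal_pos hp0 hpt
  have hQ : 0 < q.toReal := ENNReal.toReal_pos hq0 hqt
  have hc1 : p.toReal.HolderConjugate q.toReal := ENNReal.HolderConjugate.toReal_of_ne_top hpt hqt
  obtain ⟨g0, hg0, hg0m, hg0i⟩ := exists_pos_lintegral_lt_of_sigmaFinite μ one_ne_zero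
  set ρ : Measure S := μ.withDensity fun s => (g0 s : ℝ≥0∞) with hρ
  have hρf : IsFiniteMeasure ρ := isFiniteMeasure_withDensity (hg0i.trans ENNReal.one_lt_top).ne
  have hac : μ ≪ ρ := withDensity_absolutelyContinuous' hg0m.coe_nnreal_ennreal.aemeasurable
    (Eventually.of_forall fun s => by simpa using (hg0 s).ne')
  have hac' : ρ ≪ μ := withDensity_absolutelyContinuous μ _
  let w : S → ℝ := fun s => (g0 s : ℝ) ^ (p.toReal)⁻¹
  let W : S → ℝ := fun s => (g0 s : ℝ) ^ (q.toReal)⁻¹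
  have hw0 : ∀ s, 0 < w s := fun s => Real.rpow_pos_of_pos (by exact_mod_cast hg0 s) _
  have hW0 : ∀ s, 0 < W s := fun s => Real.rpow_pos_of_pos (by exact_mod_cast hg0 s) _
  have hwP : ∀ s, w s ^ p.toReal = g0 s := fun s => by
    rw [← Real.rpow_mul (g0 s).coe_nonneg, inv_mul_cancel₀ hP.ne', Real.rpow_one]
  have hWQ : ∀ s, W s ^ q.toReal = g0 s := fun s => by
    rw [← Real.rpow_mul (g0 s).coe_nonneg, inv_mul_cancel₀ hQ.ne', Real.rpow_one]
  have hwW : ∀ s, w s * W s = g0 s := fun s => by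
    rw [← Real.rpow_add (by exact_mod_cast hg0 s), hc1.inv_add_inv_eq_one, Real.rpow_one]
  have hwm : Measurable w := hg0m.coe_nnreal_real.pow_const _
  have hWm : Measurable W := hg0m.coe_nnreal_real.pow_const _
  have hwm' : AEStronglyMeasurable (fun s => (w s : ℂ)) μ :=
    (Complex.measurable_ofReal.comp hwm).aestronglyMeasurable
  have hWm' : AEStronglyMeasurable (fun s => (W s : ℂ)) μ :=
    (Complex.measurable_ofReal.comp hWm).aestronglyMeasurable
  -- the map of the spaces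
  have hmem : ∀ x : Lp ℂ p ρ, MemLp (fun s => x s * (w s : ℂ)) p μ := fun x => by
    have hx : AEStronglyMeasurable x μ := (Lp.aestronglyMeasurable x).mono_ac hac
    refine ⟨hx.mul hwm', ?_⟩
    rw [norm_weight hg0m hp0 hpt w (fun s => (hw0 s).le) hwP _ hx]
    exact Lp.eLpNorm_lt_top x
  have hnorm : ∀ x : Lp ℂ p ρ, ‖(hmem x).toLp _‖ = ‖x‖ := fun x => by
    have hx : AEStronglyMeasurable x μ := (Lp.aestronglyMeasurable x).mono_ac hac
    rw [Lp.norm_toLp, norm_weight hg0m hp0 hpt w (fun s => (hw0 s).le) hwP _ hx, Lp.norm_def]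
  let T : Lp ℂ p ρ →L[ℂ] Lp ℂ p μ := LinearMap.mkContinuous
    { toFun := fun x => (hmem x).toLp _
      map_add' := fun x y => by
        rw [← MemLp.toLp_add]
        refine MemLp.toLp_congr _ _ ?_
        filter_upwards [hac.ae_eq (Lp.coeFn_add x y)] with s hs
        rw [hs]
        simp [add_mul]
      map_smul' := fun c x => by
        rw [RingHom.id_apply, ← MemLp.toLp_const_smul]
        refine MemLp.toLp_congr _ _ ?_
        filter_upwards [hac.ae_eq (Lp.coeFn_smul c x)] with s hs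
        rw [hs]
        simp [mul_assoc] } 1 (fun x => by
          rw [one_mul]
          exact (hnorm x).le)
  have hT : ∀ x : Lp ℂ p ρ, T x = (hmem x).toLp _ := fun x => rfl
  have hTn : ‖T‖ ≤ 1 := LinearMap.mkContinuous_norm_le _ zero_le_one _
  obtain ⟨g', hg'1, hg'2⟩ := dual_fin (q := q) ρ hp hq (f.comp T)
  have hgx : AEStronglyMeasurable g' μ := (Lp.aestronglyMeasurable g').mono_ac hac
  have hgL : MemLp (fun s => g' s * (W s : ℂ)) q μ := by
    refine ⟨hgx.mul hWm', ?_⟩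
    rw [norm_weight hg0m hq0 hqt W (fun s => (hW0 s).le) hWQ _ hgx]
    exact Lp.eLpNorm_lt_top g'
  refine ⟨hgL.toLp _, ?_, ?_⟩
  · rw [Lp.norm_toLp, norm_weight hg0m hq0 hqt W (fun s => (hW0 s).le) hWQ _ hgx, ← Lp.norm_def]
    refine hg'1.trans ((f.opNorm_comp_le T).trans ?_)
    exact mul_le_of_le_one_right (norm_nonneg f) hTn
  · ext x
    have hxm : AEStronglyMeasurable (fun s => x s * ((w s)⁻¹ : ℝ)) μ :=
      (Lp.aestronglyMeasurable x).mul
        (Complex.measurable_ofReal.comp hwm.inv).aestronglyMeasurable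
    have hxw : ∀ s, x s * ((w s)⁻¹ : ℝ) * (w s : ℂ) = x s := fun s => by
      have : (w s : ℂ) ≠ 0 := by exact_mod_cast (hw0 s).ne'
      push_cast
      rw [mul_assoc, inv_mul_cancel₀ this, mul_one]
    have hyL : MemLp (fun s => x s * (((w s)⁻¹ : ℝ) : ℂ)) p ρ := by
      refine ⟨hxm.mono_ac hac', ?_⟩
      rw [← norm_weight hg0m hp0 hpt w (fun s => (hw0 s).le) hwP _ hxm]
      simp only [hxw]
      exact Lp.eLpNorm_lt_top x
    have hTy : T (hyL.toLp _) = x := by
      rw [hT]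
      ext1
      refine (MemLp.coeFn_toLp _).trans ?_
      filter_upwards [hac.ae_eq hyL.coeFn_toLp] with s hs
      rw [hs, hxw]
    have h1 : f x = (f.comp T) (hyL.toLp _) := by rw [ContinuousLinearMap.comp_apply, hTy]
    rw [h1, hg'2, pr_apply, pr_apply]
    refine (integral_withDensity_eq_integral_smul (μ := μ) hg0m _).trans ?_
    refine integral_congr_ae ?_
    filter_upwards [hgL.coeFn_toLp, hac.ae_eq hyL.coeFn_toLp] with s h2 h3
    rw [h2, h3, NNReal.smul_def, Complex.real_smul, ← hwW s]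
    have : (w s : ℂ) ≠ 0 := by exact_mod_cast (hw0 s).ne'
    push_cast
    field_simp

end

end Pool.Agent.Q208.SK
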