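import Pool.Agent.Q98.SK.Stm
import Pool.Agent.Q208.SK.LPDc

/-!
Project SK: the dual of `L^p` and reflexivity.
-/

set_option autoImplicit false

namespace Pool.Agent.Q208.SK

open MeasureTheory Filter Topology Set
open scoped ENNReal NNReal
open Pool.Agent.Q98.SK

/-- JOB LPD. -/
theorem lpd : S_LPD := by
  intro S _ μ _ p q _ _ h hp hq f
  obtain ⟨g, hg1, hg2⟩ := dual_sf (q := q) μ hp hq f
  refine ⟨g, hg1, fun x => ⟨int_pair g x, ?_⟩⟩
  rw [hg2, pr_apply]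

/-- JOB REF. -/
theorem ref (hL : S_LPD) : S_REF := by
  intro S _ μ _ p q _ _ h hp hq F
  have h' : q.HolderConjugate p := h.symm
  let G : Lp ℂ q μ →L[ℂ] ℂ :=
    (show (Lp ℂ p μ →L[ℂ] ℂ) →L[ℂ] ℂ from F).comp
      ((ContinuousLinearMap.mul ℂ ℂ).lpPairing μ q p)
  obtain ⟨x0, -, hx0⟩ := hL S μ q p hq hp G
  refine ⟨x0, ?_⟩
  ext φ
  obtain ⟨g, -, hg⟩ := hL S μ p q hp hq φ
  have h1 : φ = pr g := by
    ext x
    rw [(hg x).2, pr_apply]
  have h2 : F φ = G g := by rw [h1]; rfl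
  rw [h2, (hx0 g).2]
  refine ((hg x0).2).trans ?_
  refine integral_congr_ae (Eventually.of_forall fun s => ?_)
  exact mul_comm _ _

end Pool.Agent.Q208.SK
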