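import Mathlib

/-!
The dual of `L^p`: the case of finite measures.
-/

set_option autoImplicit false

namespace Pool.Agent.Q208.SK

open MeasureTheory Filter Topology Set
open scoped ENNReal NNReal

/-- Radon-Nikodym for set functions bounded by a power of the measure. -/
theorem rn {S : Type} [MeasurableSpace S] (ρ : Measure S) [IsFiniteMeasure ρ] (m : Set S → ℝ)
    (C e : ℝ) (he : 0 < e)
    (hadd : ∀ A B, MeasurableSet A → MeasurableSet B → Disjoint A B → m (A ∪ B) = m A + m B)
    (hbd : ∀ A, MeasurableSet A → |m A| ≤ C * ρ.real A ^ e) :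
    ∃ k : S → ℝ, Measurable k ∧ Integrable k ρ ∧
      ∀ A, MeasurableSet A → m A = ∫ s in A, k s ∂ρ := by
  classical
  have h0 : ∀ A, MeasurableSet A → ρ A = 0 → m A = 0 := by
    intro A hA h
    have h1 := hbd A hA
    have h2 : ρ.real A = 0 := by rw [measureReal_def, h]; rfl
    rw [h2, Real.zero_rpow he.ne', mul_zero] at h1
    exact abs_nonpos_iff.1 h1
  have hfin : ∀ (f : ℕ → Set S), (∀ i, MeasurableSet (f i)) →
      Pairwise (Function.onFun Disjoint f) →
      ∀ s : Finset ℕ, m (⋃ i ∈ s, f i) = ∑ i ∈ s, m (f i) := by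
    intro f hf hd s
    induction s using Finset.induction_on with
    | empty => simpa using h0 ∅ MeasurableSet.empty measure_empty
    | insert a s ha ih =>
      rw [Finset.set_biUnion_insert, hadd _ _ (hf a)
        (Finset.measurableSet_biUnion s fun i _ => hf i) ?_, Finset.sum_insert ha, ih]
      rw [Set.disjoint_iUnion₂_right]
      intro i hi
      exact hd (by rintro rfl; exact ha hi)
  let ν : SignedMeasure S :=
    { measureOf' := fun A => if MeasurableSet A then m A else 0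
      empty' := by
        rw [if_pos MeasurableSet.empty]
        exact h0 ∅ MeasurableSet.empty measure_empty
      not_measurable' := fun A hA => if_neg hA
      m_iUnion' := by
        intro f hf hd
        have hU : MeasurableSet (⋃ i, f i) := MeasurableSet.iUnion hf
        simp only [hf, hU, if_true]
        have h1 : HasSum (fun i => ρ.real (f i)) (ρ.real (⋃ i, f i)) := by
          have := ρ.toSignedMeasure.m_iUnion hf hd
          simpa only [Measure.toSignedMeasure_apply_measurable, hf, hU] using this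
        have h2 : Tendsto (fun s : Finset ℕ => C * (ρ.real (⋃ i, f i) - ∑ i ∈ s, ρ.real (f i)) ^ e)
            atTop (𝓝 0) := by
          have h3 : Tendsto (fun s : Finset ℕ => ρ.real (⋃ i, f i) - ∑ i ∈ s, ρ.real (f i))
              atTop (𝓝 (ρ.real (⋃ i, f i) - ρ.real (⋃ i, f i))) := tendsto_const_nhds.sub h1
          have h4 := (h3.rpow_const (Or.inr he.le)).const_mul C
          rwa [sub_self, Real.zero_rpow he.ne', mul_zero] at h4
        show Tendsto (fun s : Finset ℕ => ∑ i ∈ s, m (f i)) _ (𝓝 (m (⋃ i, f i)))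
        rw [tendsto_iff_norm_sub_tendsto_zero]
        refine squeeze_zero (fun _ => norm_nonneg _) (fun s => ?_) h2
        have hs : MeasurableSet (⋃ i ∈ s, f i) := Finset.measurableSet_biUnion s fun i _ => hf i
        have hsub : (⋃ i ∈ s, f i) ⊆ ⋃ i, f i := Set.iUnion₂_subset fun i _ => subset_iUnion f i
        have h5 : m (⋃ i, f i) = m (⋃ i ∈ s, f i) + m ((⋃ i, f i) \ ⋃ i ∈ s, f i) := by
          rw [← hadd _ _ hs (hU.diff hs) disjoint_sdiff_right, Set.union_sdiff_cancel hsub]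
        have h6 : ρ.real ((⋃ i, f i) \ ⋃ i ∈ s, f i)
            = ρ.real (⋃ i, f i) - ∑ i ∈ s, ρ.real (f i) := by
          rw [measureReal_sdiff hsub hs, measureReal_biUnion_finset
            (fun i _ j _ hij => hd hij) (fun i _ => hf i)]
        rw [← hfin f hf hd s, h5, Real.norm_eq_abs, abs_sub_comm, add_sub_cancel_left, ← h6]
        exact hbd _ (hU.diff hs) }
  have hν : ∀ A, MeasurableSet A → ν A = m A := fun A hA => if_pos hA
  have hac : ν ≪ᵥ ρ.toENNRealVectorMeasure := by
    refine VectorMeasure.AbsolutelyContinuous.mk fun A hA h => ?_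
    rw [Measure.toENNRealVectorMeasure_apply_measurable hA] at h
    rw [hν A hA]
    exact h0 A hA h
  refine ⟨ν.rnDeriv ρ, SignedMeasure.measurable_rnDeriv ν ρ, SignedMeasure.integrable_rnDeriv ν ρ,
    fun A hA => ?_⟩
  rw [← hν A hA, ← withDensityᵥ_apply (SignedMeasure.integrable_rnDeriv ν ρ) hA,
    SignedMeasure.withDensityᵥ_rnDeriv_eq ν ρ hac]

section

variable {S : Type} [MeasurableSpace S] {μ : Measure S} {p q : ℝ≥0∞}

lemma ne_top_left [h : p.HolderConjugate q] (hq : 1 < q) : p ≠ ∞ := by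
  rintro rfl
  have := ENNReal.HolderConjugate.unique ∞ q 1
  exact hq.ne' this

/-- The norm of the pairing with `g` is at least `‖g‖`. -/
theorem norm_le_of_pair [Fact (1 ≤ p)] [Fact (1 ≤ q)] [h : p.HolderConjugate q] (hp : 1 < p)
    (hq : 1 < q) (g : Lp ℂ q μ) (c : ℝ) (hc : 0 ≤ c)
    (hg : ∀ x : Lp ℂ p μ, ‖∫ s, g s * x s ∂μ‖ ≤ c * ‖x‖) : ‖g‖ ≤ c := by
  have hpt : p ≠ ∞ := ne_top_left (q := q) hq
  have hqt : q ≠ ∞ := by
    have : q.HolderConjugate p := h.symm
    exact ne_top_left (q := p) hp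
  have hp0 : p ≠ 0 := (zero_lt_one.trans hp).ne'
  have hq0 : q ≠ 0 := (zero_lt_one.trans hq).ne'
  have hc1 : p.toReal.HolderConjugate q.toReal := ENNReal.HolderConjugate.toReal_of_ne_top hpt hqt
  set P := p.toReal
  set Q := q.toReal
  have hP : 1 < P := hc1.lt
  have hQ : 1 < Q := hc1.symm.lt
  have hgm : Measurable (g : S → ℂ) := (Lp.stronglyMeasurable g).measurable
  let x : S → ℂ := fun s => (starRingEnd ℂ) (g s) * ((‖g s‖ ^ (Q - 2) : ℝ) : ℂ)
  have hxm : Measurable x :=
    (Complex.continuous_conj.measurable.comp hgm).mul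
      (Complex.measurable_ofReal.comp (hgm.norm.pow_const _))
  have hxn : ∀ s, ‖x s‖ ^ P = ‖g s‖ ^ Q := by
    intro s
    have h1 : ‖x s‖ = ‖g s‖ ^ (Q - 1) := by
      show ‖(starRingEnd ℂ) (g s) * ((‖g s‖ ^ (Q - 2) : ℝ) : ℂ)‖ = _
      rw [norm_mul, RCLike.norm_conj, Complex.norm_real, Real.norm_eq_abs,
        abs_of_nonneg (Real.rpow_nonneg (norm_nonneg _) _)]
      rcases eq_or_lt_of_le (norm_nonneg (g s)) with h2 | h2
      · rw [← h2, zero_mul, Real.zero_rpow (by linarith)]
      · rw [← Real.rpow_one_add' h2.le (by linarith)]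
        congr 1
        ring
    rw [h1, ← Real.rpow_mul (norm_nonneg _), hc1.symm.sub_one_mul_conj]
  have hmul : ∀ s, g s * x s = ((‖g s‖ ^ Q : ℝ) : ℂ) := by
    intro s
    show g s * ((starRingEnd ℂ) (g s) * ((‖g s‖ ^ (Q - 2) : ℝ) : ℂ)) = _
    rw [← mul_assoc, Complex.mul_conj, Complex.normSq_eq_norm_sq, ← Complex.ofReal_mul]
    congr 1
    rcases eq_or_lt_of_le (norm_nonneg (g s)) with h2 | h2
    · rw [← h2, Real.zero_rpow (by linarith : Q ≠ 0)]
      simp
    · rw [← Real.rpow_natCast, ← Real.rpow_add h2]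
      congr 1
      push_cast
      ring
  have hgi : Integrable (fun s => ‖g s‖ ^ Q) μ :=
    (integrable_norm_rpow_iff hgm.aestronglyMeasurable hq0 hqt).2 (Lp.memLp g)
  have hxL : MemLp x p μ := by
    rw [← integrable_norm_rpow_iff hxm.aestronglyMeasurable hp0 hpt]
    exact hgi.congr (Eventually.of_forall fun s => (hxn s).symm)
  set J : ℝ := ∫ s, ‖g s‖ ^ Q ∂μ with hJ
  have hJ0 : 0 ≤ J := integral_nonneg fun s => Real.rpow_nonneg (norm_nonneg _) _
  have hgn : ‖g‖ = J ^ Q⁻¹ := by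
    rw [Lp.norm_def, (Lp.memLp g).eLpNorm_eq_integral_rpow_norm hq0 hqt,
      ENNReal.toReal_ofReal (Real.rpow_nonneg hJ0 _)]
  have hxnorm : ‖hxL.toLp x‖ = J ^ P⁻¹ := by
    have h1 : ∫ s, ‖x s‖ ^ p.toReal ∂μ = J := integral_congr_ae (Eventually.of_forall hxn)
    rw [Lp.norm_toLp, hxL.eLpNorm_eq_integral_rpow_norm hp0 hpt, h1,
      ENNReal.toReal_ofReal (Real.rpow_nonneg hJ0 _)]
  have hint : ∫ s, g s * (hxL.toLp x) s ∂μ = (J : ℂ) := by
    rw [hJ, ← integral_complex_ofReal]
    refine integral_congr_ae ?_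
    filter_upwards [hxL.coeFn_toLp] with s hs
    rw [hs, hmul]
  have h1 := hg (hxL.toLp x)
  rw [hint, hxnorm, Complex.norm_real, Real.norm_eq_abs, abs_of_nonneg hJ0] at h1
  rw [hgn]
  rcases eq_or_lt_of_le hJ0 with h2 | h2
  · rw [← h2, Real.zero_rpow (inv_ne_zero (by linarith))]
    exact hc
  · have h3 : J = J ^ Q⁻¹ * J ^ P⁻¹ := by
      rw [← Real.rpow_add h2, hc1.symm.inv_add_inv_eq_one, Real.rpow_one]
    have h4 : J ^ Q⁻¹ * J ^ P⁻¹ ≤ c * J ^ P⁻¹ := by rwa [← h3]
    exact le_of_mul_le_mul_right h4 (Real.rpow_pos_of_pos h2 _)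

lemma smul_ind {A : Set S} (hA : MeasurableSet A) (h : μ A ≠ ∞) (c : ℂ) :
    c • indicatorConstLp p hA h (1 : ℂ) = indicatorConstLp p hA h c := by
  ext1
  filter_upwards [Lp.coeFn_smul c (indicatorConstLp p hA h (1 : ℂ)),
    indicatorConstLp_coeFn (p := p) (hs := hA) (hμs := h) (c := (1 : ℂ)),
    indicatorConstLp_coeFn (p := p) (hs := hA) (hμs := h) (c := c)] with s h1 h2 h3
  rw [h1, Pi.smul_apply, h2, h3]
  by_cases hs : s ∈ A
  · simp [hs]
  · simp [hs]

/-- Two functionals which agree on indicators are equal. -/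
theorem ext_ind [Fact (1 ≤ p)] (hpt : p ≠ ∞) (F G : Lp ℂ p μ →L[ℂ] ℂ)
    (hFG : ∀ (A : Set S) (hA : MeasurableSet A) (h : μ A ≠ ∞),
      F (indicatorConstLp p hA h 1) = G (indicatorConstLp p hA h 1)) : F = G := by
  ext x
  induction x using Lp.induction hpt with
  | indicatorConst c hs hμs =>
    rename_i A
    have h1 : (Lp.simpleFunc.indicatorConst p hs hμs.ne c : Lp ℂ p μ)
        = c • indicatorConstLp p hs hμs.ne (1 : ℂ) := by
      rw [Lp.simpleFunc.coe_indicatorConst, smul_ind]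
    rw [h1, map_smul, map_smul, hFG A hs hμs.ne]
  | add hf hg _ h1 h2 => rw [map_add, map_add, h1, h2]
  | isClosed => exact isClosed_eq F.continuous G.continuous

end

end Pool.Agent.Q208.SK
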