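import Pool.Agent.Q208.SK.LPDa

/-!
The dual of `L^p` of a finite measure.
-/

set_option autoImplicit false

namespace Pool.Agent.Q208.SK

open MeasureTheory Filter Topology Set
open scoped ENNReal NNReal

section

variable {S : Type} [MeasurableSpace S] {μ : Measure S} {p q : ℝ≥0∞}

/-- The pairing with `g`. -/
noncomputable def pr [Fact (1 ≤ p)] [Fact (1 ≤ q)] [h : p.HolderConjugate q] (g : Lp ℂ q μ) :
    Lp ℂ p μ →L[ℂ] ℂ :=
  haveI : q.HolderConjugate p := h.symm
  (ContinuousLinearMap.mul ℂ ℂ).lpPairing μ q p g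

lemma pr_apply [Fact (1 ≤ p)] [Fact (1 ≤ q)] [h : p.HolderConjugate q] (g : Lp ℂ q μ)
    (x : Lp ℂ p μ) : pr g x = ∫ s, g s * x s ∂μ := by
  have : q.HolderConjugate p := h.symm
  exact ContinuousLinearMap.lpPairing_eq_integral _ g x

lemma int_pair [Fact (1 ≤ p)] [Fact (1 ≤ q)] [h : p.HolderConjugate q] (g : Lp ℂ q μ)
    (x : Lp ℂ p μ) : Integrable (fun s => g s * x s) μ := by
  have : q.HolderConjugate p := h.symm
  exact (Lp.memLp g).integrable_mul (Lp.memLp x)

lemma int_ind {A : Set S} (hA : MeasurableSet A) (h : μ A ≠ ∞) (g : S → ℂ) :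
    ∫ s, g s * (indicatorConstLp p hA h (1 : ℂ)) s ∂μ = ∫ s in A, g s ∂μ := by
  rw [← integral_indicator hA]
  refine integral_congr_ae ?_
  filter_upwards [indicatorConstLp_coeFn (p := p) (hs := hA) (hμs := h) (c := (1 : ℂ))] with s h1
  rw [h1]
  by_cases hs : s ∈ A
  · simp [hs]
  · simp [hs]

/-- Restriction to a set. -/
noncomputable def rs [Fact (1 ≤ p)] [IsFiniteMeasure μ] {B : Set S} (hB : MeasurableSet B) :
    Lp ℂ p μ →L[ℂ] Lp ℂ p μ :=
  (ContinuousLinearMap.mul ℂ ℂ).holderL μ ∞ p p (indicatorConstLp ∞ hB (measure_ne_top μ B) 1)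

lemma rs_apply [Fact (1 ≤ p)] [IsFiniteMeasure μ] {B : Set S} (hB : MeasurableSet B)
    (x : Lp ℂ p μ) : rs hB x =ᵐ[μ] B.indicator x := by
  have h1 : rs hB x =ᵐ[μ] fun s => (ContinuousLinearMap.mul ℂ ℂ)
      ((indicatorConstLp ∞ hB (measure_ne_top μ B) (1 : ℂ)) s) (x s) :=
    ContinuousLinearMap.coeFn_holder (r := p) (ContinuousLinearMap.mul ℂ ℂ)
      (indicatorConstLp ∞ hB (measure_ne_top μ B) (1 : ℂ)) x
  filter_upwards [h1, indicatorConstLp_coeFn (p := ∞) (hs := hB) (hμs := measure_ne_top μ B)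
    (c := (1 : ℂ))] with s h2 h3
  rw [h2, h3]
  by_cases hs : s ∈ B
  · simp [hs]
  · simp [hs]

lemma rs_norm [Fact (1 ≤ p)] [IsFiniteMeasure μ] {B : Set S} (hB : MeasurableSet B)
    (x : Lp ℂ p μ) : ‖rs hB x‖ ≤ ‖x‖ := by
  refine Lp.norm_le_norm_of_ae_le ?_
  filter_upwards [rs_apply hB x] with s h1
  rw [h1]
  by_cases hs : s ∈ B
  · simp [hs]
  · simp [hs]

lemma rs_ind [Fact (1 ≤ p)] [IsFiniteMeasure μ] {A B : Set S} (hB : MeasurableSet B)
    (hA : MeasurableSet A) (h : μ A ≠ ∞) : rs hB (indicatorConstLp p hA h (1 : ℂ))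
      = indicatorConstLp p (hA.inter hB) (measure_ne_top μ _) (1 : ℂ) := by
  ext1
  filter_upwards [rs_apply hB (indicatorConstLp p hA h (1 : ℂ)),
    indicatorConstLp_coeFn (p := p) (hs := hA) (hμs := h) (c := (1 : ℂ)),
    indicatorConstLp_coeFn (p := p) (hs := hA.inter hB) (hμs := measure_ne_top μ _)
      (c := (1 : ℂ))] with s h1 h2 h3
  rw [h1, h3]
  by_cases hs : s ∈ B
  · rw [Set.indicator_of_mem hs, h2]
    by_cases hs' : s ∈ A
    · simp [hs, hs']
    · simp [hs, hs']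
  · simp [hs]

/-- The dual of `L^p` of a finite measure. -/
theorem dual_fin (ρ : Measure S) [IsFiniteMeasure ρ] [Fact (1 ≤ p)] [Fact (1 ≤ q)]
    [h : p.HolderConjugate q] (hp : 1 < p) (hq : 1 < q) (f : Lp ℂ p ρ →L[ℂ] ℂ) :
    ∃ g : Lp ℂ q ρ, ‖g‖ ≤ ‖f‖ ∧ f = pr g := by
  classical
  have hpt : p ≠ ∞ := ne_top_left (q := q) hq
  have hp0 : p ≠ 0 := (zero_lt_one.trans hp).ne'
  have hP : 0 < p.toReal := ENNReal.toReal_pos hp0 hpt
  let F : Set S → ℂ := fun A =>
    if hA : MeasurableSet A then f (indicatorConstLp p hA (measure_ne_top ρ A) 1) else 0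
  have hF : ∀ (A : Set S) (hA : MeasurableSet A),
      F A = f (indicatorConstLp p hA (measure_ne_top ρ A) 1) := fun A hA => dif_pos hA
  have hadd : ∀ A B, MeasurableSet A → MeasurableSet B → Disjoint A B →
      F (A ∪ B) = F A + F B := by
    intro A B hA hB hd
    rw [hF _ (hA.union hB), hF A hA, hF B hB, ← map_add,
      ← indicatorConstLp_disjoint_union hA hB (measure_ne_top ρ A) (measure_ne_top ρ B) hd]
  have hbd : ∀ A, MeasurableSet A → ‖F A‖ ≤ ‖f‖ * ρ.real A ^ (1 / p.toReal) := by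
    intro A hA
    rw [hF A hA]
    refine (f.le_opNorm _).trans (mul_le_mul_of_nonneg_left ?_ (norm_nonneg _))
    rw [norm_indicatorConstLp hp0 hpt, norm_one, one_mul]
  obtain ⟨kr, hkr1, hkr2, hkr3⟩ := rn ρ (fun A => (F A).re) ‖f‖ (1 / p.toReal) (by positivity)
    (fun A B hA hB hd => by rw [hadd A B hA hB hd, Complex.add_re])
    (fun A hA => (Complex.abs_re_le_norm _).trans (hbd A hA))
  obtain ⟨ki, hki1, hki2, hki3⟩ := rn ρ (fun A => (F A).im) ‖f‖ (1 / p.toReal) (by positivity)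
    (fun A B hA hB hd => by rw [hadd A B hA hB hd, Complex.add_im])
    (fun A hA => (Complex.abs_im_le_norm _).trans (hbd A hA))
  let k : S → ℂ := fun s => (kr s : ℂ) + (ki s : ℂ) * Complex.I
  have hkm : Measurable k := (Complex.measurable_ofReal.comp hkr1).add
    ((Complex.measurable_ofReal.comp hki1).mul_const _)
  have hkA : ∀ A, MeasurableSet A → F A = ∫ s in A, k s ∂ρ := by
    intro A hA
    have h1 : ∫ s in A, k s ∂ρ = ((∫ s in A, kr s ∂ρ : ℝ) : ℂ)
        + ((∫ s in A, ki s ∂ρ : ℝ) : ℂ) * Complex.I := by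
      rw [← integral_complex_ofReal, ← integral_complex_ofReal, ← integral_mul_const,
        ← integral_add (μ := ρ.restrict A) hkr2.ofReal.restrict (hki2.ofReal.restrict.mul_const _)]
    rw [h1, ← hkr3 A hA, ← hki3 A hA, Complex.re_add_im]
  let B : ℕ → Set S := fun n => {s | ‖k s‖ ≤ n}
  have hB : ∀ n, MeasurableSet (B n) := fun n => measurableSet_le hkm.norm measurable_const
  have hkn : ∀ n, MemLp ((B n).indicator k) q ρ := by
    intro n
    refine MemLp.of_bound (hkm.indicator (hB n)).aestronglyMeasurable n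
      (Eventually.of_forall fun s => ?_)
    by_cases hs : s ∈ B n
    · rw [Set.indicator_of_mem hs]
      exact hs
    · rw [Set.indicator_of_notMem hs, norm_zero]
      positivity
  have hpair : ∀ n, f.comp (rs (hB n)) = pr ((hkn n).toLp _) := by
    intro n
    refine ext_ind hpt _ _ fun A hA hA' => ?_
    rw [ContinuousLinearMap.comp_apply, rs_ind (hB n) hA hA', ← hF _ (hA.inter (hB n)),
      hkA _ (hA.inter (hB n)), pr_apply, int_ind hA hA', ← setIntegral_indicator (hB n)]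
    refine setIntegral_congr_ae hA ?_
    filter_upwards [(hkn n).coeFn_toLp] with s h1 _
    rw [h1]
  have hnorm : ∀ n, ‖(hkn n).toLp _‖ ≤ ‖f‖ := by
    intro n
    refine norm_le_of_pair (p := p) hp hq _ _ (norm_nonneg f) fun x => ?_
    rw [← pr_apply, ← hpair n, ContinuousLinearMap.comp_apply]
    exact (f.le_opNorm _).trans (mul_le_mul_of_nonneg_left (rs_norm (hB n) x) (norm_nonneg f))
  have hlim : eLpNorm k q ρ ≤ ENNReal.ofReal ‖f‖ := by
    have h1 := Lp.eLpNorm_lim_le_liminf_eLpNorm (p := q) (μ := ρ)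
      (fun n => (hkn n).aestronglyMeasurable) k (Eventually.of_forall fun s => by
        refine tendsto_const_nhds.congr' ?_
        obtain ⟨n0, hn0⟩ := exists_nat_ge ‖k s‖
        filter_upwards [eventually_ge_atTop n0] with n hn
        have : s ∈ B n := hn0.trans (by exact_mod_cast hn)
        rw [Set.indicator_of_mem this])
    refine h1.trans ?_
    refine Filter.liminf_le_of_frequently_le' (Frequently.of_forall fun n => ?_)
    have h2 := hnorm n
    rw [Lp.norm_toLp] at h2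
    rw [← ENNReal.ofReal_toReal (hkn n).eLpNorm_ne_top]
    exact ENNReal.ofReal_le_ofReal h2
  have hkL : MemLp k q ρ := ⟨hkm.aestronglyMeasurable, hlim.trans_lt ENNReal.ofReal_lt_top⟩
  refine ⟨hkL.toLp k, ?_, ?_⟩
  · rw [Lp.norm_toLp]
    exact ENNReal.toReal_le_of_le_ofReal (norm_nonneg _) hlim
  · refine ext_ind hpt _ _ fun A hA hA' => ?_
    have h1 := hkA A hA
    rw [hF A hA] at h1
    rw [pr_apply, int_ind hA hA', h1]
    refine setIntegral_congr_ae hA ?_
    filter_upwards [hkL.coeFn_toLp] with s h1 _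
    rw [h1]

end

end Pool.Agent.Q208.SK
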