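import Pool.Agent.Q208.SK.TLP

/-!
Project SK: rescaling of `r`-nuclear families.
-/

set_option autoImplicit false

namespace Pool.Agent.Q208.SK

open MeasureTheory Filter Topology Set
open scoped ENNReal NNReal
open Pool.Agent.Q98.SK

section

variable {S : Type} [MeasurableSpace S] {μ : Measure S} {p q : ℝ≥0∞} [Fact (1 ≤ p)]
  [Fact (1 ≤ q)]

lemma meas_en (x : Lp ℂ p μ) (k : ℕ) : Measurable fun s => ‖x s‖ₑ ^ k :=
  (Lp.stronglyMeasurable x).measurable.enorm.pow_const k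

lemma sq_big (hp0 : p ≠ 0) (hpt : p ≠ ∞) (h2 : 2 ≤ p.toReal) (x : ℕ → Lp ℂ p μ)
    (hx : Summable (fun j => ‖x j‖ ^ 2)) : SQ μ p x := by
  have hP : 0 < p.toReal := ENNReal.toReal_pos hp0 hpt
  set a : ℝ := p.toReal / 2 with ha
  have ha1 : 1 ≤ a := by rw [ha]; linarith
  have ha0 : 0 < a := by linarith
  have hone : ∀ j, (∫⁻ s, (‖x j s‖ₑ ^ 2) ^ a ∂μ) ^ (1 / a) = ENNReal.ofReal (‖x j‖ ^ 2) := by
    intro j
    have h3 : ∀ s, (‖x j s‖ₑ ^ 2) ^ a = ‖x j s‖ₑ ^ p.toReal := fun s => by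
      rw [← ENNReal.rpow_two, ← ENNReal.rpow_mul]
      congr 1
      rw [ha]
      ring
    simp only [h3]
    have h4 : ENNReal.ofReal (‖x j‖ ^ 2)
        = ((∫⁻ s, ‖x j s‖ₑ ^ p.toReal ∂μ) ^ (1 / p.toReal)) ^ (2 : ℝ) := by
      rw [← eLpNorm_eq_lintegral_rpow_enorm_toReal hp0 hpt, ENNReal.ofReal_pow (norm_nonneg _),
        Lp.norm_def, ENNReal.ofReal_toReal (Lp.eLpNorm_ne_top _), ENNReal.rpow_two]
    rw [h4, ← ENNReal.rpow_mul]
    congr 1
    rw [ha]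
    field_simp
  have hfin : ∀ n, (∫⁻ s, (∑ j ∈ Finset.range n, ‖x j s‖ₑ ^ 2) ^ a ∂μ) ^ (1 / a)
      ≤ ENNReal.ofReal (∑ j ∈ Finset.range n, ‖x j‖ ^ 2) := by
    intro n
    induction n with
    | zero =>
      simp [ENNReal.zero_rpow_of_pos ha0, ENNReal.zero_rpow_of_pos (inv_pos.2 ha0)]
    | succ n ih =>
      simp only [Finset.sum_range_succ]
      rw [ENNReal.ofReal_add (Finset.sum_nonneg fun j _ => by positivity) (by positivity)]
      refine (ENNReal.lintegral_Lp_add_le (f := fun s => ∑ j ∈ Finset.range n, ‖x j s‖ₑ ^ 2)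
        (g := fun s => ‖x n s‖ₑ ^ 2) ?_ (meas_en _ _).aemeasurable ha1).trans ?_
      · exact (Finset.measurable_sum _ fun j _ => meas_en _ _).aemeasurable
      · exact add_le_add ih (hone n).le
  set C : ℝ≥0∞ := ENNReal.ofReal (∑' j, ‖x j‖ ^ 2) with hC
  have hfin' : ∀ n, ∫⁻ s, (∑ j ∈ Finset.range n, ‖x j s‖ₑ ^ 2) ^ a ∂μ ≤ C ^ a := by
    intro n
    have h3 := (hfin n).trans (ENNReal.ofReal_le_ofReal
      (hx.sum_le_tsum (Finset.range n) fun j _ => by positivity))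
    have h4 := ENNReal.rpow_le_rpow h3 ha0.le
    rwa [← ENNReal.rpow_mul, one_div, inv_mul_cancel₀ ha0.ne', ENNReal.rpow_one] at h4
  have hlim : ∀ s, Tendsto (fun n => (∑ j ∈ Finset.range n, ‖x j s‖ₑ ^ 2) ^ a) atTop
      (𝓝 ((∑' j, ‖x j s‖ₑ ^ 2) ^ a)) := fun s =>
    ((ENNReal.continuous_rpow_const (y := a)).tendsto _).comp ENNReal.summable.hasSum.tendsto_sum_nat
  have h5 : ∫⁻ s, (∑' j, ‖x j s‖ₑ ^ 2) ^ a ∂μ ≤ C ^ a := by
    calc ∫⁻ s, (∑' j, ‖x j s‖ₑ ^ 2) ^ a ∂μ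
        = ∫⁻ s, liminf (fun n => (∑ j ∈ Finset.range n, ‖x j s‖ₑ ^ 2) ^ a) atTop ∂μ := by
          refine lintegral_congr fun s => ?_
          rw [(hlim s).liminf_eq]
      _ ≤ liminf (fun n => ∫⁻ s, (∑ j ∈ Finset.range n, ‖x j s‖ₑ ^ 2) ^ a ∂μ) atTop :=
          lintegral_liminf_le fun n => (Finset.measurable_sum _ fun j _ => meas_en _ _).pow_const _
      _ ≤ C ^ a := Filter.liminf_le_of_frequently_le' (Frequently.of_forall hfin')
  exact ne_top_of_le_ne_top (ENNReal.rpow_ne_top_of_nonneg ha0.le ENNReal.ofReal_ne_top) h5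

lemma rpow_sum {t : ℝ} (ht0 : 0 < t) (ht1 : t ≤ 1) (a : ℕ → ℝ≥0∞) :
    (∑' j, a j) ^ t ≤ ∑' j, a j ^ t := by
  have h1 : ∀ n, (∑ j ∈ Finset.range n, a j) ^ t ≤ ∑ j ∈ Finset.range n, a j ^ t := by
    intro n
    induction n with
    | zero => simp [ENNReal.zero_rpow_of_pos ht0]
    | succ n ih =>
      rw [Finset.sum_range_succ, Finset.sum_range_succ]
      exact (ENNReal.rpow_add_le_add_rpow _ _ ht0.le ht1).trans (by gcongr)
  have h2 : Tendsto (fun n => (∑ j ∈ Finset.range n, a j) ^ t) atTop (𝓝 ((∑' j, a j) ^ t)) :=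
    ((ENNReal.continuous_rpow_const (y := t)).tendsto _).comp ENNReal.summable.hasSum.tendsto_sum_nat
  exact le_of_tendsto' h2 fun n => (h1 n).trans (ENNReal.sum_le_tsum _)

lemma sq_small (hq0 : q ≠ 0) (hqt : q ≠ ∞) (h2 : q.toReal ≤ 2) (y : ℕ → Lp ℂ q μ)
    (hy : Summable (fun j => ‖y j‖ ^ q.toReal)) : SQ μ q y := by
  have hQ : 0 < q.toReal := ENNReal.toReal_pos hq0 hqt
  have h1 : ∀ s, (∑' j, ‖y j s‖ₑ ^ 2) ^ (q.toReal / 2) ≤ ∑' j, ‖y j s‖ₑ ^ q.toReal := by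
    intro s
    refine (rpow_sum (by positivity) (by linarith) _).trans (le_of_eq ?_)
    refine tsum_congr fun j => ?_
    rw [← ENNReal.rpow_two, ← ENNReal.rpow_mul]
    congr 1
    ring
  have h3 : ∀ j, ∫⁻ s, ‖y j s‖ₑ ^ q.toReal ∂μ = ENNReal.ofReal (‖y j‖ ^ q.toReal) := by
    intro j
    rw [← ENNReal.ofReal_rpow_of_nonneg (norm_nonneg _) hQ.le, Lp.norm_def,
      ENNReal.ofReal_toReal (Lp.eLpNorm_ne_top _), eLpNorm_eq_lintegral_rpow_enorm_toReal hq0 hqt,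
      ← ENNReal.rpow_mul, one_div, inv_mul_cancel₀ hQ.ne', ENNReal.rpow_one]
  have h4 : ∫⁻ s, ∑' j, ‖y j s‖ₑ ^ q.toReal ∂μ = ENNReal.ofReal (∑' j, ‖y j‖ ^ q.toReal) := by
    rw [lintegral_tsum fun j => ((Lp.stronglyMeasurable (y j)).measurable.enorm.pow_const
      _).aemeasurable, ENNReal.ofReal_tsum_of_nonneg (fun j => by positivity) hy]
    exact tsum_congr h3
  refine ne_top_of_le_ne_top ?_ (lintegral_mono h1)
  rw [h4]
  exact ENNReal.ofReal_ne_top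

/-- The rescaling when the first exponent is at least two. -/
theorem nuc_aux (hp0 : p ≠ 0) (hpt : p ≠ ∞) (hq0 : q ≠ 0) (hqt : q ≠ ∞) (hp2 : 2 ≤ p.toReal)
    (hq2 : q.toReal ≤ 2) {r : ℝ} (hr : 0 < r) (hrq : 1 / r = 1 / 2 + 1 / q.toReal)
    (u : ℕ → Lp ℂ p μ) (v : ℕ → Lp ℂ q μ) (hs : Summable (fun j => (‖u j‖ * ‖v j‖) ^ r)) :
    ∃ α β : ℕ → ℂ, (∀ j, α j * β j = 1 ∨ ((u j = 0 ∨ v j = 0) ∧ α j = 0 ∧ β j = 0)) ∧
      SQ μ p (fun j => α j • u j) ∧ SQ μ q (fun j => β j • v j) := by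
  classical
  have hQ : 0 < q.toReal := ENNReal.toReal_pos hq0 hqt
  set L : ℕ → ℝ := fun j => ‖u j‖ * ‖v j‖ with hL
  let a : ℕ → ℝ := fun j => if L j = 0 then 0 else L j ^ (r / 2) / ‖u j‖
  let b : ℕ → ℝ := fun j => if L j = 0 then 0 else ‖u j‖ / L j ^ (r / 2)
  have hexp : (1 - r / 2) * q.toReal = r := by
    have h1 : (1 : ℝ) / 2 + 1 / q.toReal = 1 / r := hrq.symm
    field_simp at h1
    linarith
  have hua : ∀ j, ‖((a j : ℂ)) • u j‖ ^ 2 = L j ^ r := by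
    intro j
    rw [norm_smul, Complex.norm_real, Real.norm_eq_abs]
    by_cases h0 : L j = 0
    · have : a j = 0 := if_pos h0
      rw [this, h0, Real.zero_rpow hr.ne']
      simp
    · have h1 : a j = L j ^ (r / 2) / ‖u j‖ := if_neg h0
      have hu : 0 < ‖u j‖ := by
        rcases (norm_nonneg (u j)).eq_or_lt with h | h
        · exact absurd (by show ‖u j‖ * ‖v j‖ = 0; rw [← h, zero_mul]) h0
        · exact h
      have hLp : 0 < L j := lt_of_le_of_ne (mul_nonneg (norm_nonneg _) (norm_nonneg _)) (Ne.symm h0)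
      rw [h1, abs_of_pos (by positivity), div_mul_cancel₀ _ hu.ne', ← Real.rpow_natCast,
        ← Real.rpow_mul hLp.le]
      congr 1
      push_cast
      ring
  have hvb : ∀ j, ‖((b j : ℂ)) • v j‖ ^ q.toReal = L j ^ r := by
    intro j
    rw [norm_smul, Complex.norm_real, Real.norm_eq_abs]
    by_cases h0 : L j = 0
    · have : b j = 0 := if_pos h0
      rw [this, h0, Real.zero_rpow hr.ne', abs_zero, zero_mul, Real.zero_rpow hQ.ne']
    · have h1 : b j = ‖u j‖ / L j ^ (r / 2) := if_neg h0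
      have hLp : 0 < L j := lt_of_le_of_ne (mul_nonneg (norm_nonneg _) (norm_nonneg _)) (Ne.symm h0)
      have h2 : |b j| * ‖v j‖ = L j ^ (1 - r / 2) := by
        rw [h1, abs_of_nonneg (by positivity), Real.rpow_sub hLp, Real.rpow_one]
        show ‖u j‖ / L j ^ (r / 2) * ‖v j‖ = (‖u j‖ * ‖v j‖) / L j ^ (r / 2)
        ring
      rw [h2, ← Real.rpow_mul hLp.le, hexp]
  refine ⟨fun j => (a j : ℂ), fun j => (b j : ℂ), fun j => ?_, ?_, ?_⟩
  · by_cases h0 : L j = 0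
    · right
      refine ⟨?_, ?_, ?_⟩
      · rcases mul_eq_zero.1 h0 with h | h
        · exact Or.inl (norm_eq_zero.1 h)
        · exact Or.inr (norm_eq_zero.1 h)
      · show ((a j : ℝ) : ℂ) = 0
        rw [show a j = 0 from if_pos h0, Complex.ofReal_zero]
      · show ((b j : ℝ) : ℂ) = 0
        rw [show b j = 0 from if_pos h0, Complex.ofReal_zero]
    · left
      have hu : ‖u j‖ ≠ 0 := fun h => h0 (by show ‖u j‖ * ‖v j‖ = 0; rw [h, zero_mul])
      have hLp : 0 < L j := lt_of_le_of_ne (mul_nonneg (norm_nonneg _) (norm_nonneg _)) (Ne.symm h0)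
      have hLr : L j ^ (r / 2) ≠ 0 := (Real.rpow_pos_of_pos hLp _).ne'
      rw [← Complex.ofReal_mul, show a j = L j ^ (r / 2) / ‖u j‖ from if_neg h0,
        show b j = ‖u j‖ / L j ^ (r / 2) from if_neg h0]
      rw [div_mul_div_comm, mul_comm, div_self (mul_ne_zero hu hLr), Complex.ofReal_one]
  · exact sq_big hp0 hpt hp2 _ (hs.congr fun j => (hua j).symm)
  · exact sq_small hq0 hqt hq2 _ (hs.congr fun j => (hvb j).symm)

end

/-- JOB NUC. -/
theorem nuc : S_NUC := by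
  intro S _ μ p q _ _ h hp hq r hr hrp u v hs
  have h' : q.HolderConjugate p := h.symm
  have hpt : p ≠ ∞ := ne_top_left (q := q) hq
  have hqt : q ≠ ∞ := ne_top_left (q := p) hp
  have hp0 : p ≠ 0 := (zero_lt_one.trans hp).ne'
  have hq0 : q ≠ 0 := (zero_lt_one.trans hq).ne'
  have hP : 0 < p.toReal := ENNReal.toReal_pos hp0 hpt
  have hQ : 0 < q.toReal := ENNReal.toReal_pos hq0 hqt
  have hc1 : p.toReal.HolderConjugate q.toReal := ENNReal.HolderConjugate.toReal_of_ne_top hpt hqt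
  have hc2 := hc1.inv_add_inv_eq_one
  rcases le_total 2 p.toReal with h2 | h2
  · have h3 : (p.toReal)⁻¹ ≤ 1 / 2 := by
      rw [inv_le_comm₀ hP (by norm_num)]
      norm_num
      exact h2
    have h4 : q.toReal ≤ 2 := by
      have h5 : 1 / 2 ≤ (q.toReal)⁻¹ := by linarith
      rw [le_inv_comm₀ (by norm_num) hQ] at h5
      norm_num at h5
      exact h5
    refine nuc_aux hp0 hpt hq0 hqt h2 h4 hr ?_ u v hs
    rw [hrp, abs_of_nonneg (by rw [one_div p.toReal]; linarith), one_div p.toReal,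
      one_div q.toReal]
    linarith
  · have h3 : 1 / 2 ≤ (p.toReal)⁻¹ := by
      rw [le_inv_comm₀ (by norm_num) hP]
      norm_num
      exact h2
    have h4 : 2 ≤ q.toReal := by
      have h5 : (q.toReal)⁻¹ ≤ 1 / 2 := by linarith
      rw [inv_le_comm₀ hQ (by norm_num)] at h5
      norm_num at h5
      exact h5
    obtain ⟨β, α, h5, h6, h7⟩ := nuc_aux (μ := μ) hq0 hqt hp0 hpt h4 h2 hr (by
      rw [hrp, abs_of_nonpos (by rw [one_div p.toReal]; linarith)]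
      ring) v u (hs.congr fun j => by rw [mul_comm])
    refine ⟨α, β, fun j => ?_, h7, h6⟩
    rcases h5 j with h8 | ⟨h8, h9, h10⟩
    · left
      rw [mul_comm, h8]
    · right
      exact ⟨h8.symm, h10, h9⟩

end Pool.Agent.Q208.SK
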