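import Pool.Agent.Q208.SK.LPD

/-!
Project SK: norm convergence of the finite sections.
-/

set_option autoImplicit false

namespace Pool.Agent.Q208.SK

open MeasureTheory Filter Topology Set
open scoped ENNReal NNReal
open Pool.Agent.Q98.SK

section

variable {S : Type} [MeasurableSpace S] {μ : Measure S} {p q : ℝ≥0∞}

/-- The norm of the square function of the tail. -/
noncomputable def tl (μ : Measure S) (p : ℝ≥0∞) (u : ℕ → Lp ℂ p μ) (m : ℕ) : ℝ≥0∞ :=
  (∫⁻ s, (∑' k, ‖u (k + m) s‖ₑ ^ 2) ^ (p.toReal / 2) ∂μ) ^ (1 / p.toReal)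

lemma tl_int (u : ℕ → Lp ℂ p μ) (hu : SQ μ p u) (m : ℕ) :
    ∫⁻ s, (∑' k, ‖u (k + m) s‖ₑ ^ 2) ^ (p.toReal / 2) ∂μ ≠ ∞ := by
  refine ne_top_of_le_ne_top hu (lintegral_mono fun s => ?_)
  refine ENNReal.rpow_le_rpow ?_ (by positivity)
  exact ENNReal.tsum_comp_le_tsum_of_injective (add_left_injective m) _

lemma tl_ne_top (u : ℕ → Lp ℂ p μ) (hu : SQ μ p u) (m : ℕ) : tl μ p u m ≠ ∞ :=
  ENNReal.rpow_ne_top_of_nonneg (by positivity) (tl_int u hu m)

lemma meas_tl (u : ℕ → Lp ℂ p μ) (m : ℕ) :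
    Measurable fun s => (∑' k, ‖u (k + m) s‖ₑ ^ 2) ^ (p.toReal / 2) := by
  refine Measurable.pow_const (Measurable.tsum fun k => ?_) _
  exact (Lp.stronglyMeasurable (u (k + m))).measurable.enorm.pow_const 2

lemma tl_tendsto (hp0 : p ≠ 0) (hpt : p ≠ ∞) (u : ℕ → Lp ℂ p μ) (hu : SQ μ p u) :
    Tendsto (tl μ p u) atTop (𝓝 0) := by
  have hP : 0 < p.toReal := ENNReal.toReal_pos hp0 hpt
  have h1 : Tendsto (fun m => ∫⁻ s, (∑' k, ‖u (k + m) s‖ₑ ^ 2) ^ (p.toReal / 2) ∂μ) atTop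
      (𝓝 (∫⁻ _, 0 ∂μ)) := by
    refine tendsto_lintegral_of_dominated_convergence'
      (fun s => (∑' k, ‖u k s‖ₑ ^ 2) ^ (p.toReal / 2)) (fun m => (meas_tl u m).aemeasurable)
      (fun m => Eventually.of_forall fun s => ?_) hu ?_
    · exact ENNReal.rpow_le_rpow (ENNReal.tsum_comp_le_tsum_of_injective (add_left_injective m) _)
        (by positivity)
    · have h2 := ae_lt_top (meas_tl u 0) (tl_int u hu 0)
      filter_upwards [h2] with s hs
      have h3 : ∑' k, ‖u k s‖ₑ ^ 2 ≠ ∞ := by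
        intro h4
        simp only [add_zero] at hs
        rw [h4, ENNReal.top_rpow_of_pos (by positivity)] at hs
        exact lt_irrefl _ hs
      have h4 := ENNReal.tendsto_sum_nat_add _ h3
      have h5 := (ENNReal.continuous_rpow_const (y := p.toReal / 2)).tendsto 0
      rw [ENNReal.zero_rpow_of_pos (by positivity)] at h5
      exact h5.comp h4
  rw [lintegral_zero] at h1
  have h5 := (ENNReal.continuous_rpow_const (y := 1 / p.toReal)).tendsto 0
  rw [ENNReal.zero_rpow_of_pos (by positivity)] at h5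
  exact h5.comp h1

/-- Linear combinations. -/
lemma comb_le (hp0 : p ≠ 0) (hpt : p ≠ ∞) (u : ℕ → Lp ℂ p μ) (c : ℕ → ℂ) (m n : ℕ) :
    eLpNorm (∑ j ∈ Finset.range n, c j • u (j + m) : Lp ℂ p μ) p μ
      ≤ (∑ j ∈ Finset.range n, ‖c j‖ₑ ^ 2) ^ (1 / 2 : ℝ) * tl μ p u m := by
  have hP : 0 < p.toReal := ENNReal.toReal_pos hp0 hpt
  set A : ℝ≥0∞ := ∑ j ∈ Finset.range n, ‖c j‖ₑ ^ 2 with hA
  have hAt : A ≠ ∞ := by
    rw [hA]
    refine (ENNReal.sum_lt_top.2 fun j _ => ?_).ne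
    exact ENNReal.pow_lt_top enorm_lt_top
  have hae : ∀ᵐ s ∂μ, ‖(∑ j ∈ Finset.range n, c j • u (j + m) : Lp ℂ p μ) s‖ₑ
      ≤ A ^ (1 / 2 : ℝ) * (∑' k, ‖u (k + m) s‖ₑ ^ 2) ^ (1 / 2 : ℝ) := by
    have h1 : ∀ᵐ s ∂μ, ∀ j, (c j • u (j + m) : Lp ℂ p μ) s = c j • u (j + m) s := by
      rw [ae_all_iff]
      intro j
      exact Lp.coeFn_smul (c j) (u (j + m))
    filter_upwards [Lp.coeFn_fun_finsetSum (Finset.range n) (fun j => c j • u (j + m)), h1]
      with s h2 h3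
    rw [h2]
    calc ‖∑ j ∈ Finset.range n, (c j • u (j + m) : Lp ℂ p μ) s‖ₑ
        ≤ ∑ j ∈ Finset.range n, ‖(c j • u (j + m) : Lp ℂ p μ) s‖ₑ := enorm_sum_le _ _
      _ = ∑ j ∈ Finset.range n, ‖c j‖ₑ * ‖u (j + m) s‖ₑ :=
          Finset.sum_congr rfl fun j _ => by rw [h3 j, enorm_smul]
      _ ≤ (∑ j ∈ Finset.range n, ‖c j‖ₑ ^ (2 : ℝ)) ^ (1 / (2 : ℝ))
          * (∑ j ∈ Finset.range n, ‖u (j + m) s‖ₑ ^ (2 : ℝ)) ^ (1 / (2 : ℝ)) :=
          ENNReal.inner_le_Lp_mul_Lq _ _ _ Real.HolderConjugate.two_two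
      _ ≤ _ := by
          simp only [ENNReal.rpow_two]
          refine mul_le_mul_right (ENNReal.rpow_le_rpow ?_ (by positivity)) _
          exact ENNReal.sum_le_tsum _
  rw [eLpNorm_eq_lintegral_rpow_enorm_toReal hp0 hpt]
  have h4 : ∫⁻ s, ‖(∑ j ∈ Finset.range n, c j • u (j + m) : Lp ℂ p μ) s‖ₑ ^ p.toReal ∂μ
      ≤ A ^ (p.toReal / 2) * ∫⁻ s, (∑' k, ‖u (k + m) s‖ₑ ^ 2) ^ (p.toReal / 2) ∂μ := by
    rw [← lintegral_const_mul' _ _ (ENNReal.rpow_ne_top_of_nonneg (by positivity) hAt)]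
    refine lintegral_mono_ae ?_
    filter_upwards [hae] with s hs
    refine (ENNReal.rpow_le_rpow hs hP.le).trans (le_of_eq ?_)
    rw [ENNReal.mul_rpow_of_nonneg _ _ hP.le, ← ENNReal.rpow_mul, ← ENNReal.rpow_mul]
    congr 2 <;> ring
  refine (ENNReal.rpow_le_rpow h4 (by positivity)).trans (le_of_eq ?_)
  rw [ENNReal.mul_rpow_of_nonneg _ _ (by positivity), ← ENNReal.rpow_mul]
  congr 2
  field_simp

lemma comb_norm_le (hp0 : p ≠ 0) (hpt : p ≠ ∞) (u : ℕ → Lp ℂ p μ) (hu : SQ μ p u)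
    (c : ℕ → ℂ) (m n : ℕ) :
    ‖(∑ j ∈ Finset.range n, c j • u (j + m) : Lp ℂ p μ)‖
      ≤ √(∑ j ∈ Finset.range n, ‖c j‖ ^ 2) * (tl μ p u m).toReal := by
  have h1 := comb_le hp0 hpt u c m n
  have hA : (∑ j ∈ Finset.range n, ‖c j‖ₑ ^ 2) ^ (1 / 2 : ℝ)
      = ENNReal.ofReal √(∑ j ∈ Finset.range n, ‖c j‖ ^ 2) := by
    rw [Real.sqrt_eq_rpow, ← ENNReal.ofReal_rpow_of_nonneg
      (Finset.sum_nonneg fun j _ => by positivity) (by norm_num),
      ENNReal.ofReal_sum_of_nonneg (fun j _ => by positivity)]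
    congr 1
    refine Finset.sum_congr rfl fun j _ => ?_
    rw [ENNReal.ofReal_pow (norm_nonneg _), ofReal_norm]
  rw [hA] at h1
  rw [Lp.norm_def]
  have h2 := ENNReal.toReal_mono (ENNReal.mul_ne_top ENNReal.ofReal_ne_top (tl_ne_top u hu m)) h1
  rwa [ENNReal.toReal_mul, ENNReal.toReal_ofReal (Real.sqrt_nonneg _)] at h2

/-- Hölder's inequality for the pairing. -/
lemma pr_norm [Fact (1 ≤ p)] [Fact (1 ≤ q)] [h : p.HolderConjugate q] (y : Lp ℂ q μ)
    (f : Lp ℂ p μ) : ‖pr y f‖ ≤ ‖y‖ * ‖f‖ := by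
  have h' : q.HolderConjugate p := h.symm
  have h1 : pr y f = L1.integral ((ContinuousLinearMap.mul ℂ ℂ).holder 1 y f) := by
    rw [pr_apply, L1.integral_eq_integral]
    exact integral_congr_ae
      (ContinuousLinearMap.coeFn_holder (r := 1) (ContinuousLinearMap.mul ℂ ℂ) y f).symm
  rw [h1]
  refine (L1.norm_integral_le _).trans ?_
  have h2 := ContinuousLinearMap.norm_holder_apply_apply_le (r := 1)
    (ContinuousLinearMap.mul ℂ ℂ) y f
  rwa [ContinuousLinearMap.opNorm_mul, one_mul] at h2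

end

/-- JOB TLP. -/
theorem tlp : S_TLP := by
  intro S _ μ p q _ _ h hp hq K u v hu hv hK
  have h' : q.HolderConjugate p := h.symm
  have hpt : p ≠ ∞ := ne_top_left (q := q) hq
  have hqt : q ≠ ∞ := ne_top_left (q := p) hp
  have hp0 : p ≠ 0 := (zero_lt_one.trans hp).ne'
  have hq0 : q ≠ 0 := (zero_lt_one.trans hq).ne'
  set b : ℝ := (tl μ q v 0).toReal with hb
  have hb0 : 0 ≤ b := ENNReal.toReal_nonneg
  -- the coefficients
  have hcoef : ∀ (f : Lp ℂ p μ) (n : ℕ),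
      √(∑ j ∈ Finset.range n, ‖∫ s, v j s * f s ∂μ‖ ^ 2) ≤ b * ‖f‖ := by
    intro f n
    set c : ℕ → ℂ := fun j => ∫ s, v j s * f s ∂μ with hc
    set x : ℝ := √(∑ j ∈ Finset.range n, ‖c j‖ ^ 2) with hx
    have hx0 : 0 ≤ x := Real.sqrt_nonneg _
    have hx2 : x ^ 2 = ∑ j ∈ Finset.range n, ‖c j‖ ^ 2 :=
      Real.sq_sqrt (Finset.sum_nonneg fun j _ => by positivity)
    let y : Lp ℂ q μ := ∑ j ∈ Finset.range n, (starRingEnd ℂ) (c j) • v (j + 0)
    have hy : ‖y‖ ≤ x * b := by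
      have h1 := comb_norm_le hq0 hqt v hv (fun j => (starRingEnd ℂ) (c j)) 0 n
      simpa only [RCLike.norm_conj] using h1
    have h2 : pr (p := p) y f = ((x ^ 2 : ℝ) : ℂ) := by
      have h3 : pr (p := p) y = ∑ j ∈ Finset.range n, (starRingEnd ℂ) (c j) • pr (p := p) (v j) := by
        show (ContinuousLinearMap.mul ℂ ℂ).lpPairing μ q p y = _
        rw [map_sum]
        exact Finset.sum_congr rfl fun j _ => map_smul _ _ _
      rw [h3, sum_apply, hx2]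
      push_cast
      refine Finset.sum_congr rfl fun j _ => ?_
      rw [Pi.smul_apply, pr_apply, smul_eq_mul, mul_comm, Complex.mul_conj,
        Complex.normSq_eq_norm_sq]
      push_cast
      rfl
    have h4 : ‖pr (p := p) y f‖ ≤ ‖y‖ * ‖f‖ := pr_norm y f
    rw [h2, Complex.norm_real, Real.norm_eq_abs, abs_of_nonneg (sq_nonneg _)] at h4
    rcases hx0.eq_or_lt with h6 | h6
    · rw [← h6]
      positivity
    · have h7 : x * x ≤ (b * ‖f‖) * x := by
        calc x * x = x ^ 2 := (pow_two x).symm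
          _ ≤ ‖y‖ * ‖f‖ := h4
          _ ≤ (x * b) * ‖f‖ := mul_le_mul_of_nonneg_right hy (norm_nonneg _)
          _ = (b * ‖f‖) * x := by ring
      exact le_of_mul_le_mul_right h7 h6
  refine ⟨fun m => (tl μ p u m).toReal * b, fun m => mul_nonneg ENNReal.toReal_nonneg hb0, ?_, ?_⟩
  · have h1 := (ENNReal.tendsto_toReal ENNReal.zero_ne_top).comp (tl_tendsto hp0 hpt u hu)
    have h2 := h1.mul_const b
    simpa using h2
  · intro m f
    set c : ℕ → ℂ := fun j => ∫ s, v j s * f s ∂μ with hc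
    have h1 : Tendsto (fun n => ∑ j ∈ Finset.range n, c (j + m) • u (j + m)) atTop
        (𝓝 (K f - ∑ j ∈ Finset.range m, c j • u j)) := by
      have h2 := ((hasSum_nat_add_iff' m).2 (hK f)).tendsto_sum_nat
      exact h2
    refine le_of_tendsto h1.norm (Eventually.of_forall fun n => ?_)
    refine (comb_norm_le hp0 hpt u hu (fun j => c (j + m)) m n).trans ?_
    have h3 : √(∑ j ∈ Finset.range n, ‖c (j + m)‖ ^ 2) ≤ b * ‖f‖ := by
      refine le_trans (Real.sqrt_le_sqrt ?_) (hcoef f (n + m))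
      rw [← Finset.sum_image (f := fun j => ‖c j‖ ^ 2) (g := fun j => j + m)
        (fun a _ b _ hab => by simpa using hab)]
      refine Finset.sum_le_sum_of_subset_of_nonneg ?_ fun j _ _ => by positivity
      intro j hj
      simp only [Finset.mem_image, Finset.mem_range] at hj ⊢
      obtain ⟨a, ha, rfl⟩ := hj
      omega
    calc √(∑ j ∈ Finset.range n, ‖c (j + m)‖ ^ 2) * (tl μ p u m).toReal
        ≤ (b * ‖f‖) * (tl μ p u m).toReal :=
          mul_le_mul_of_nonneg_right h3 ENNReal.toReal_nonneg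
      _ = (tl μ p u m).toReal * b * ‖f‖ := by ring

end Pool.Agent.Q208.SK
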